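import Pool.Agent.Run7.h285.S.Stm
import Pool.Agent.Run7.h794.MK.Stm

/-!
# Project SYS, piece CG, part A: general lemmas
-/

set_option autoImplicit false

namespace Run7.h376.CGS

open Finset Filter Topology
open Run7.h285.S
open Pool.Agent.TH892.SW (ff ffn wt wt_nonneg wt_le wt_anti pp_sum lamz_le)
open Pool.Agent.H373R2.T7 (lamz Vz lamI lamzI lamz_nonneg)
open Pool.Agent.H807R2.Dav

/-! ### the exponential sums -/

theorem dd_round (x : ℝ) : 4 * |x - round x| ≤ dd x := by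
  obtain ⟨y, hy⟩ : ∃ y, y = x - round x := ⟨_, rfl⟩
  have hx : x = y + (round x : ℤ) := by rw [hy]; ring
  have h1 : dd x = dd y := by
    conv_lhs => rw [hx]
    exact dd_add_int y _
  have h2 : |y| ≤ 1 / 2 := by rw [hy]; exact abs_sub_round x
  have h3 : dd y = dd |y| := by
    rcases abs_cases y with ⟨h, _⟩ | ⟨h, _⟩
    · rw [h]
    · rw [h, dd_neg]
  have h4 := dd_ge (abs_nonneg y) (by linarith : |y| ≤ 1)
  rw [min_eq_left (by linarith)] at h4
  rw [← hy, h1, h3]
  exact h4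

theorem fourier_blk {s M d N e0 H : ℕ} {σ : ℤ} (hσ : σ = 1 ∨ σ = -1) (hd : 1 ≤ d) (hM : 1 ≤ M)
    (hN : 1 ≤ N) (hH : 1 ≤ H) {Lp : ℝ} (hLp : 0 < Lp) (t : ℤ)
    (ht : ∀ c ∈ range (2 * d), ∀ k : ℤ,
      Lp * (((6 * d * N : ℕ) : ℝ) / H) < |((t - ((3 * N * c : ℕ) : ℤ) - k * ((6 * d * N : ℕ) : ℤ) : ℤ) : ℝ)|) :
    ‖∑ m ∈ Ioc s (s + M), ((1 / (M : ℝ) : ℝ) : ℂ) *
      ee (((σ * ((d : ℤ) * (2 * (m : ℤ) + (e0 : ℤ))) : ℤ) : ℝ) * ((t : ℝ) / ((6 * d * N : ℕ) : ℝ)))‖ ≤ H / (M * Lp) := by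
  have hd0 : (0 : ℝ) < d := by exact_mod_cast hd
  have hN0 : (0 : ℝ) < N := by exact_mod_cast hN
  have hM0 : (0 : ℝ) < M := by exact_mod_cast hM
  have hH0 : (0 : ℝ) < H := by exact_mod_cast hH
  have hσ2 : (σ : ℝ) * σ = 1 := by rcases hσ with h | h <;> rw [h] <;> norm_num
  have hσa : |(σ : ℝ)| = 1 := by rcases hσ with h | h <;> rw [h] <;> norm_num
  obtain ⟨x, hx⟩ : ∃ x : ℝ, x = σ * t / (3 * N) := ⟨_, rfl⟩
  -- the frequency
  have hη : 2 * d * Lp / H < |x - round x| := by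
    obtain ⟨c0, hc0⟩ : ∃ c0 : ℤ, c0 = σ * round x := ⟨_, rfl⟩
    have h2d : (0 : ℤ) < 2 * d := by
      have : (0 : ℤ) < d := by exact_mod_cast hd
      linarith
    have hc1 := Int.emod_nonneg c0 h2d.ne'
    have hc2 := Int.emod_lt_of_pos c0 h2d
    have hc3 := Int.mul_ediv_add_emod c0 (2 * d)
    have hmem : (c0 % (2 * d)).toNat ∈ range (2 * d) := by
      rw [mem_range]
      omega
    have h1 := ht _ hmem (c0 / (2 * d))
    have e1 : t - ((3 * N * (c0 % (2 * d)).toNat : ℕ) : ℤ) - c0 / (2 * d) * ((6 * d * N : ℕ) : ℤ) =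
        t - 3 * N * c0 := by
      push_cast
      rw [Int.toNat_of_nonneg hc1]
      linear_combination (-(3 * (N : ℤ))) * hc3
    rw [e1] at h1
    have e2 : ((t - 3 * N * c0 : ℤ) : ℝ) = 3 * N * σ * (x - round x) := by
      have hx' : 3 * (N : ℝ) * x = σ * t := by
        rw [hx]; field_simp
      rw [hc0]
      push_cast
      linear_combination (-(t : ℝ)) * hσ2 - (σ : ℝ) * hx'
    rw [e2, abs_mul, abs_mul, hσa, mul_one, abs_of_pos (by positivity : (0 : ℝ) < 3 * N)] at h1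
    rw [div_lt_iff₀ hH0]
    push_cast at h1
    rw [← mul_div_assoc, div_lt_iff₀ hH0] at h1
    have h2 : 3 * N * (2 * d * Lp) < 3 * N * (|x - round x| * H) := by
      calc 3 * N * (2 * d * Lp) = Lp * (6 * d * N) := by ring
        _ < _ := h1
        _ = _ := by ring
    exact lt_of_mul_lt_mul_left h2 (by positivity)
  have hdd : 8 * Lp / H ≤ dd x := by
    have h1 := dd_round x
    have h2 : 2 * Lp / H ≤ 2 * d * Lp / H := by
      have : (1 : ℝ) ≤ d := by exact_mod_cast hd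
      gcongr
      nlinarith
    have h3 : 8 * Lp / H = 4 * (2 * Lp / H) := by ring
    rw [h3]
    linarith
  -- the sum
  have e3 : ∀ m : ℕ, ((1 / (M : ℝ) : ℝ) : ℂ) *
      ee (((σ * ((d : ℤ) * (2 * (m : ℤ) + (e0 : ℤ))) : ℤ) : ℝ) * ((t : ℝ) / ((6 * d * N : ℕ) : ℝ))) =
      (((1 / (M : ℝ) : ℝ) : ℂ) * ee (σ * e0 * t / (6 * N))) * ee (m * x) := by
    intro m
    rw [mul_assoc (((1 / (M : ℝ) : ℝ) : ℂ)) (ee (σ * e0 * t / (6 * N))) (ee (m * x)), ← ee_add]
    congr 2
    rw [hx]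
    push_cast
    field_simp
    ring
  rw [sum_congr rfl (fun m _ => e3 m), ← mul_sum, norm_mul, norm_mul, norm_ee, mul_one, Complex.norm_real,
    Real.norm_of_nonneg (by positivity)]
  have e4 : Ioc s (s + M) = Ico (s + 1) (s + M + 1) := by
    ext m
    rw [mem_Ioc, mem_Ico]
    omega
  rw [e4]
  have h5 := geo_bound (s + 1) (s + M + 1) (by omega) (M := M) (by push_cast; linarith) x
  have h6 := KK_le' (M := (M : ℝ)) hM0.le (by positivity : (0 : ℝ) < 8 * Lp / H) hdd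
  calc 1 / (M : ℝ) * ‖∑ m ∈ Ico (s + 1) (s + M + 1), ee (m * x)‖ ≤ 1 / (M : ℝ) * (3 / (8 * Lp / H)) :=
        mul_le_mul_of_nonneg_left (h5.trans h6) (by positivity)
    _ = (3 / 8) * (H / (M * Lp)) := by field_simp
    _ ≤ 1 * (H / (M * Lp)) := mul_le_mul_of_nonneg_right (by norm_num) (by positivity)
    _ = _ := one_mul _

/-! ### replacing the weights -/

theorem wt_le' (n : ℕ) : wt n ≤ 3 / 2 := by
  rcases Nat.lt_or_ge n 2 with h | h
  · have : wt n = 0 := by
      unfold wt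
      interval_cases n <;> simp
    rw [this]; norm_num
  · exact wt_le h

theorem wt_diff {a b : ℕ} (ha : 3 ≤ a) (hab : a ≤ b) : |wt a - wt b| ≤ ((b : ℝ) - a) / a := by
  have ha0 : (3 : ℝ) ≤ a := by exact_mod_cast ha
  have hab' : (a : ℝ) ≤ b := by exact_mod_cast hab
  have hla : 1 ≤ Real.log a := by
    rw [Real.le_log_iff_exp_le (by linarith)]
    exact (Real.exp_one_lt_d9.le.trans (by norm_num)).trans ha0
  have hlb : 1 ≤ Real.log b := hla.trans (Real.log_le_log (by linarith) hab')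
  rw [abs_of_nonneg (by have := wt_anti (by omega : 2 ≤ a) hab; linarith)]
  unfold wt
  rw [div_sub_div _ _ (by linarith) (by linarith), one_mul, mul_one]
  have h1 : Real.log b - Real.log a ≤ ((b : ℝ) - a) / a := by
    rw [← Real.log_div (by linarith) (by linarith)]
    have h2 := Real.log_le_sub_one_of_pos (x := (b : ℝ) / a) (div_pos (by linarith) (by linarith))
    rw [sub_div, div_self (by linarith : (a : ℝ) ≠ 0)]
    exact h2
  have h0 : 0 ≤ Real.log b - Real.log a := by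
    have := Real.log_le_log (by linarith : (0 : ℝ) < a) hab'
    linarith
  refine le_trans ?_ h1
  rw [div_le_iff₀ (by positivity)]
  have : 1 ≤ Real.log a * Real.log b := by nlinarith
  nlinarith

/-- `1_prime - wt Λ` -/
noncomputable def PP (n : ℕ) : ℝ := |(if n.Prime then (1 : ℝ) else 0) - ArithmeticFunction.vonMangoldt n * wt n|

theorem repl_pt {z : ℕ} (hz : 1 ≤ z) (t : ℕ) (y : ℤ) :
    |ff z y - wt t * (lamI y - lamzI z y)| ≤ (if 2 ≤ y then PP y.toNat else 0) +
      (if y = 1 then 3 / 2 * (Vz z)⁻¹ else 0) +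
      (if 2 ≤ y then |wt y.toNat - wt t| * (ArithmeticFunction.vonMangoldt y.toNat + (Vz z)⁻¹) else 0) := by
  rcases lt_trichotomy y 1 with h | h | h
  · have h1 : ¬ (2 ≤ y) := by omega
    have h2 : ¬ (1 ≤ y) := by omega
    have h3 : y ≠ 1 := by omega
    unfold ff lamI lamzI
    simp [h1, h2, h3]
  · subst h
    unfold ff lamI lamzI
    have h1 : ¬ ((2 : ℤ) ≤ 1) := by norm_num
    simp only [h1, if_false, le_refl, if_true, Int.toNat_one, ArithmeticFunction.vonMangoldt_apply_one]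
    rw [zero_sub, zero_sub, abs_neg, mul_neg, abs_neg, abs_of_nonneg (mul_nonneg (wt_nonneg t) (lamz_nonneg z 1))]
    have h2 := lamz_le z 1 hz
    have h3 := mul_le_mul (wt_le' t) h2 (lamz_nonneg z 1) (by norm_num)
    linarith
  · have h1 : 2 ≤ y := by omega
    have h2 : 1 ≤ y := by omega
    have h3 : y ≠ 1 := by omega
    unfold ff lamI lamzI
    simp only [h1, h2, h3, if_true, if_false, add_zero]
    unfold ffn PP
    have h4 : ((if y.toNat.Prime then (1 : ℝ) else 0) - lamz z y.toNat * wt y.toNat) -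
        wt t * (ArithmeticFunction.vonMangoldt y.toNat - lamz z y.toNat) =
        ((if y.toNat.Prime then (1 : ℝ) else 0) - ArithmeticFunction.vonMangoldt y.toNat * wt y.toNat) +
        (wt y.toNat - wt t) * (ArithmeticFunction.vonMangoldt y.toNat - lamz z y.toNat) := by ring
    rw [h4]
    refine (abs_add_le _ _).trans ?_
    rw [abs_mul]
    have h5 : |ArithmeticFunction.vonMangoldt y.toNat - lamz z y.toNat| ≤
        ArithmeticFunction.vonMangoldt y.toNat + (Vz z)⁻¹ := by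
      refine (abs_sub _ _).trans ?_
      rw [abs_of_nonneg ArithmeticFunction.vonMangoldt_nonneg, abs_of_nonneg (lamz_nonneg z _)]
      linarith [lamz_le z y.toNat hz]
    have h6 := mul_le_mul_of_nonneg_left h5 (abs_nonneg (wt y.toNat - wt t))
    linarith

end Run7.h376.CGS
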