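import Pool.Agent.Run7.h376.CGS.A

/-!
# Project SYS, piece CG, part A2: general lemmas
-/

set_option autoImplicit false

namespace Run7.h376.CGS

open Finset Filter Topology
open Run7.h285.S
open Pool.Agent.TH892.SW (ff ffn wt wt_nonneg wt_le wt_anti pp_sum lamz_le)
open Pool.Agent.H373R2.T7 (lamz Vz lamI lamzI lamz_nonneg)
open Pool.Agent.H807R2.Dav

theorem PP_nonneg (n : ℕ) : 0 ≤ PP n := abs_nonneg _

/-- the sum of the errors of the replacement of the weights -/
theorem repl_sum {z N : ℕ} (hz : 1 ≤ z) {Y : ℤ} {Dm T Lv : ℝ} (hN : 2 ≤ N) (hY : |(Y : ℝ)| ≤ Dm)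
    (hDN : Dm ≤ N) (hT : Dm + 4 ≤ T) (hLv : (Vz z)⁻¹ ≤ Lv) :
    ∑ t ∈ Icc 1 N, |ff z ((t : ℤ) + Y) - wt t * (lamI ((t : ℤ) + Y) - lamzI z ((t : ℤ) + Y))| ≤
      3 * √((2 * N : ℕ) : ℝ) * Real.log ((2 * N : ℕ) : ℝ) + 3 / 2 * Lv +
        (Real.log ((2 * N : ℕ) : ℝ) + Lv) * (3 / 2 * T + N * (Dm / (T - Dm))) := by
  have hDm0 : 0 ≤ Dm := (abs_nonneg _).trans hY
  have hV0 : 0 ≤ (Vz z)⁻¹ := (lamz_nonneg z 0).trans (lamz_le z 0 hz)
  have hLv0 : 0 ≤ Lv := hV0.trans hLv
  have hlog0 : 0 ≤ Real.log ((2 * N : ℕ) : ℝ) := Real.log_natCast_nonneg _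
  have hN0 : (0 : ℝ) ≤ N := Nat.cast_nonneg _
  have hupper : ∀ t ∈ Icc 1 N, (t : ℤ) + Y ≤ (2 * N : ℕ) := by
    intro t ht
    rw [mem_Icc] at ht
    have h1 : (Y : ℝ) ≤ N := (le_abs_self _).trans (hY.trans hDN)
    have h2 : Y ≤ N := by exact_mod_cast h1
    push_cast
    omega
  -- first part
  have s1 : ∑ t ∈ Icc 1 N, (if 2 ≤ (t : ℤ) + Y then PP ((t : ℤ) + Y).toNat else 0) ≤
      3 * √((2 * N : ℕ) : ℝ) * Real.log ((2 * N : ℕ) : ℝ) := by
    rw [← sum_filter]
    have hinj : Set.InjOn (fun t : ℕ => ((t : ℤ) + Y).toNat) ((Icc 1 N).filter fun t : ℕ => 2 ≤ (t : ℤ) + Y) := by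
      intro a ha b hb hab
      rw [mem_coe, mem_filter] at ha hb
      simp only at hab
      omega
    have e := sum_image (f := PP) hinj
    rw [← e]
    refine le_trans (sum_le_sum_of_subset_of_nonneg ?_ fun _ _ _ => PP_nonneg _) (pp_sum (2 * N) (by omega))
    intro n hn
    rw [mem_image] at hn
    obtain ⟨t, ht, rfl⟩ := hn
    rw [mem_filter] at ht
    have := hupper t ht.1
    rw [mem_Icc]
    constructor <;> omega
  -- second part
  have s2 : ∑ t ∈ Icc 1 N, (if (t : ℤ) + Y = 1 then 3 / 2 * (Vz z)⁻¹ else 0) ≤ 3 / 2 * Lv := by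
    rw [← sum_filter, sum_const, nsmul_eq_mul]
    have hc : ((Icc 1 N).filter fun t : ℕ => (t : ℤ) + Y = 1).card ≤ 1 := by
      rw [card_le_one]
      intro a ha b hb
      rw [mem_filter] at ha hb
      omega
    have hc' : (((Icc 1 N).filter fun t : ℕ => (t : ℤ) + Y = 1).card : ℝ) ≤ 1 := by exact_mod_cast hc
    have h1 : 0 ≤ 3 / 2 * (Vz z)⁻¹ := by positivity
    calc _ ≤ 1 * (3 / 2 * (Vz z)⁻¹) := mul_le_mul_of_nonneg_right hc' h1
      _ ≤ _ := by linarith
  -- third part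
  have s3 : ∑ t ∈ Icc 1 N, (if 2 ≤ (t : ℤ) + Y then |wt ((t : ℤ) + Y).toNat - wt t| *
      (ArithmeticFunction.vonMangoldt ((t : ℤ) + Y).toNat + (Vz z)⁻¹) else 0) ≤
      (Real.log ((2 * N : ℕ) : ℝ) + Lv) * (3 / 2 * T + N * (Dm / (T - Dm))) := by
    have hTD : 0 < T - Dm := by linarith
    have hpt : ∀ t ∈ Icc 1 N, (if 2 ≤ (t : ℤ) + Y then |wt ((t : ℤ) + Y).toNat - wt t| *
        (ArithmeticFunction.vonMangoldt ((t : ℤ) + Y).toNat + (Vz z)⁻¹) else 0) ≤
        (Real.log ((2 * N : ℕ) : ℝ) + Lv) * ((if (t : ℝ) ≤ T then 3 / 2 else 0) + Dm / (T - Dm)) := by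
      intro t ht
      have hr0 : 0 ≤ (Real.log ((2 * N : ℕ) : ℝ) + Lv) * ((if (t : ℝ) ≤ T then 3 / 2 else 0) + Dm / (T - Dm)) := by
        have : (0 : ℝ) ≤ (if (t : ℝ) ≤ T then 3 / 2 else 0) := by split_ifs <;> norm_num
        positivity
      split_ifs with h1 h2
      · -- small `t`
        rw [if_pos h2] at hr0
        have e1 : |wt ((t : ℤ) + Y).toNat - wt t| ≤ 3 / 2 := by
          rw [abs_le]
          constructor
          · linarith [wt_le' t, wt_nonneg ((t : ℤ) + Y).toNat]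
          · linarith [wt_nonneg t, wt_le' ((t : ℤ) + Y).toNat]
        have e2 : ArithmeticFunction.vonMangoldt ((t : ℤ) + Y).toNat + (Vz z)⁻¹ ≤
            Real.log ((2 * N : ℕ) : ℝ) + Lv := by
          have h3 := hupper t ht
          have h4 : ((t : ℤ) + Y).toNat ≤ 2 * N := by omega
          have h5 : Real.log (((t : ℤ) + Y).toNat : ℝ) ≤ Real.log ((2 * N : ℕ) : ℝ) := by
            apply Real.log_le_log
            · exact_mod_cast (by omega : 0 < ((t : ℤ) + Y).toNat)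
            · exact_mod_cast h4
          have := @ArithmeticFunction.vonMangoldt_le_log ((t : ℤ) + Y).toNat
          linarith
        have e3 : 0 ≤ Dm / (T - Dm) := by positivity
        have e4 : 0 ≤ ArithmeticFunction.vonMangoldt ((t : ℤ) + Y).toNat + (Vz z)⁻¹ :=
          add_nonneg ArithmeticFunction.vonMangoldt_nonneg hV0
        calc _ ≤ 3 / 2 * (Real.log ((2 * N : ℕ) : ℝ) + Lv) := mul_le_mul e1 e2 e4 (by norm_num)
          _ = (Real.log ((2 * N : ℕ) : ℝ) + Lv) * (3 / 2 + 0) := by ring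
          _ ≤ _ := by gcongr
      · -- large `t`
        push Not at h2
        rw [if_neg (by push Not; exact h2)] at hr0
        have h3 := hupper t ht
        have h4 : ((t : ℤ) + Y).toNat ≤ 2 * N := by omega
        have hyr : ((((t : ℤ) + Y).toNat : ℕ) : ℝ) = (t : ℝ) + Y := by
          have : ((((t : ℤ) + Y).toNat : ℕ) : ℤ) = (t : ℤ) + Y := Int.toNat_of_nonneg (by omega)
          exact_mod_cast this
        have hyT : T - Dm ≤ (t : ℝ) + Y := by
          have := neg_abs_le (Y : ℝ)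
          linarith
        have e1 : |wt ((t : ℤ) + Y).toNat - wt t| ≤ Dm / (T - Dm) := by
          rcases le_total ((t : ℤ) + Y).toNat t with h | h
          · have h3' : 3 ≤ ((t : ℤ) + Y).toNat := by
              have : (3 : ℝ) ≤ ((((t : ℤ) + Y).toNat : ℕ) : ℝ) := by rw [hyr]; linarith
              exact_mod_cast this
            refine (wt_diff h3' h).trans ?_
            rw [hyr]
            have e5 : (t : ℝ) - (t + Y) = -Y := by ring
            rw [e5]
            apply div_le_div₀ hDm0 ((neg_le_abs _).trans hY) hTD hyT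
          · have h3' : 3 ≤ t := by
              have : (3 : ℝ) ≤ t := by linarith
              exact_mod_cast this
            rw [abs_sub_comm]
            refine (wt_diff h3' h).trans ?_
            rw [hyr]
            have e5 : (t : ℝ) + Y - t = Y := by ring
            rw [e5]
            apply div_le_div₀ hDm0 ((le_abs_self _).trans hY) hTD (by linarith)
        have e2 : ArithmeticFunction.vonMangoldt ((t : ℤ) + Y).toNat + (Vz z)⁻¹ ≤
            Real.log ((2 * N : ℕ) : ℝ) + Lv := by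
          have h5 : Real.log (((t : ℤ) + Y).toNat : ℝ) ≤ Real.log ((2 * N : ℕ) : ℝ) := by
            apply Real.log_le_log
            · exact_mod_cast (by omega : 0 < ((t : ℤ) + Y).toNat)
            · exact_mod_cast h4
          have := @ArithmeticFunction.vonMangoldt_le_log ((t : ℤ) + Y).toNat
          linarith
        have e4 : 0 ≤ ArithmeticFunction.vonMangoldt ((t : ℤ) + Y).toNat + (Vz z)⁻¹ :=
          add_nonneg ArithmeticFunction.vonMangoldt_nonneg hV0
        calc _ ≤ Dm / (T - Dm) * (Real.log ((2 * N : ℕ) : ℝ) + Lv) := mul_le_mul e1 e2 e4 (by positivity)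
          _ = (Real.log ((2 * N : ℕ) : ℝ) + Lv) * (0 + Dm / (T - Dm)) := by ring
      · rename_i h2
        rw [if_pos h2] at hr0
        exact hr0
      · rename_i h2
        rw [if_neg h2] at hr0
        exact hr0
    refine (sum_le_sum hpt).trans ?_
    rw [← mul_sum, sum_add_distrib, sum_const, Nat.card_Icc, nsmul_eq_mul, ← sum_filter, sum_const, nsmul_eq_mul]
    have hc : (((Icc 1 N).filter fun t : ℕ => (t : ℝ) ≤ T).card : ℝ) ≤ T := by
      have hT0 : 0 ≤ T := by linarith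
      have h1 : (Icc 1 N).filter (fun t : ℕ => (t : ℝ) ≤ T) ⊆ Icc 1 ⌊T⌋₊ := by
        intro t ht
        rw [mem_filter, mem_Icc] at ht
        rw [mem_Icc]
        exact ⟨ht.1.1, Nat.le_floor ht.2⟩
      have h2 := card_le_card h1
      rw [Nat.card_Icc, Nat.add_sub_cancel] at h2
      have h3 : (((Icc 1 N).filter fun t : ℕ => (t : ℝ) ≤ T).card : ℝ) ≤ (⌊T⌋₊ : ℝ) := by exact_mod_cast h2
      exact h3.trans (Nat.floor_le hT0)
    have hNN : ((N + 1 - 1 : ℕ) : ℝ) = N := by norm_num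
    rw [hNN]
    apply mul_le_mul_of_nonneg_left _ (by positivity)
    linarith
  calc _ ≤ ∑ t ∈ Icc 1 N, (((if 2 ≤ (t : ℤ) + Y then PP ((t : ℤ) + Y).toNat else 0) +
      (if (t : ℤ) + Y = 1 then 3 / 2 * (Vz z)⁻¹ else 0)) +
      (if 2 ≤ (t : ℤ) + Y then |wt ((t : ℤ) + Y).toNat - wt t| *
        (ArithmeticFunction.vonMangoldt ((t : ℤ) + Y).toNat + (Vz z)⁻¹) else 0)) :=
        sum_le_sum fun t _ => repl_pt hz t _
    _ ≤ _ := by
      rw [sum_add_distrib, sum_add_distrib]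
      linarith

/-- sums over integers as sums over natural numbers -/
theorem sum_nat {a b : ℤ} {N : ℕ} (hb : b ≤ N) (F : ℤ → ℝ) (hF : ∀ k, k ≤ 0 → F k = 0) :
    ∑ k ∈ Icc a b, F k = ∑ t ∈ Icc 1 N, if (t : ℤ) ∈ Icc a b then F t else 0 := by
  rw [← sum_filter]
  symm
  have hinj : Set.InjOn (fun t : ℕ => (t : ℤ)) ((Icc 1 N).filter fun t : ℕ => (t : ℤ) ∈ Icc a b) := by
    intro x _ y _ h
    have h' : (x : ℤ) = y := h
    exact_mod_cast h'
  rw [← sum_image (f := F) hinj]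
  apply sum_subset
  · intro k hk
    rw [mem_image] at hk
    obtain ⟨t, ht, rfl⟩ := hk
    exact (mem_filter.1 ht).2
  · intro k hk hk'
    apply hF
    by_contra hcon
    push Not at hcon
    apply hk'
    rw [mem_image]
    rw [mem_Icc] at hk
    refine ⟨k.toNat, ?_, Int.toNat_of_nonneg hcon.le⟩
    rw [mem_filter, mem_Icc, mem_Icc]
    refine ⟨⟨by omega, by omega⟩, by omega, by omega⟩

theorem ff_neg {z : ℕ} {y : ℤ} (h : y ≤ 1) : ff z y = 0 := by
  unfold ff
  rw [if_neg (by omega)]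

/-- the splitting of the correlation in an interval -/
theorem cor_split {z N : ℕ} {a b D : ℤ} (hb : b ≤ N) (ha : -a ≤ N) (hD : 0 ≤ D) :
    ∑ k ∈ Icc a b, gg z k * gg z (k + D) =
      ∑ t ∈ Icc 1 N, (if (t : ℤ) ∈ Icc a b then ff z t else 0) * ff z ((t : ℤ) + D) +
      ∑ t ∈ Icc 1 N, (if -(t : ℤ) ∈ Icc a b then ff z t else 0) * ff z ((t : ℤ) + -D) +
      ∑ t ∈ Icc 1 N, (if -(t : ℤ) ∈ Icc a b then ff z t else 0) * ff z (D - (t : ℤ)) := by
  have h1 : ∑ k ∈ Icc a b, gg z k * gg z (k + D) = ∑ k ∈ Icc a b, ff z k * gg z (k + D) +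
      ∑ k ∈ Icc a b, ff z (-k) * gg z (k + D) := by
    rw [← sum_add_distrib]
    apply sum_congr rfl
    intro k _
    have : gg z k = ff z k + ff z (-k) := by unfold gg; rw [one_mul, neg_one_mul]
    rw [this]; ring
  have h2 : ∑ k ∈ Icc a b, ff z (-k) * gg z (k + D) = ∑ k ∈ Icc (-b) (-a), ff z k * gg z (-k + D) := by
    apply sum_nbij' (fun k => -k) (fun k => -k)
    · intro k hk; rw [mem_Icc] at hk ⊢; constructor <;> omega
    · intro k hk; rw [mem_Icc] at hk ⊢; constructor <;> omega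
    · intro k _; ring
    · intro k _; ring
    · intro k _; rw [neg_neg]
  rw [h1, h2, sum_nat hb (fun k => ff z k * gg z (k + D)) (fun k hk => by rw [ff_neg (by omega), zero_mul]),
    sum_nat ha (fun k => ff z k * gg z (-k + D)) (fun k hk => by rw [ff_neg (by omega), zero_mul]), add_assoc]
  congr 1
  · apply sum_congr rfl
    intro t ht
    rw [mem_Icc] at ht
    split_ifs with h
    · have : gg z ((t : ℤ) + D) = ff z ((t : ℤ) + D) := by
        unfold gg
        rw [one_mul, neg_one_mul, ff_neg (y := -((t : ℤ) + D)) (by omega), add_zero]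
      rw [this]
    · rw [zero_mul]
  · rw [← sum_add_distrib]
    apply sum_congr rfl
    intro t ht
    have hiff : (t : ℤ) ∈ Icc (-b) (-a) ↔ -(t : ℤ) ∈ Icc a b := by
      rw [mem_Icc, mem_Icc]; omega
    by_cases h : -(t : ℤ) ∈ Icc a b
    · rw [if_pos (hiff.2 h), if_pos h]
      have : gg z (-(t : ℤ) + D) = ff z ((t : ℤ) + -D) + ff z (D - (t : ℤ)) := by
        unfold gg
        rw [one_mul, neg_one_mul, add_comm]
        congr 2 <;> ring
      rw [this]; ring
    · rw [if_neg (fun h' => h (hiff.1 h')), if_neg h]; ring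

/-- moving the interval -/
theorem icc_shift {f : ℤ → ℝ} {Kf : ℝ} (hf : ∀ k, |f k| ≤ Kf) (a b : ℤ) (δ : ℕ) :
    |∑ k ∈ Icc (a + δ) (b + δ), f k - ∑ k ∈ Icc a b, f k| ≤ 2 * δ * Kf := by
  have hK0 : 0 ≤ Kf := (abs_nonneg _).trans (hf 0)
  induction δ with
  | zero => simp
  | succ δ ih =>
    -- one step
    have hstep : |∑ k ∈ Icc (a + (δ + 1 : ℕ)) (b + (δ + 1 : ℕ)), f k - ∑ k ∈ Icc (a + δ) (b + δ), f k| ≤ 2 * Kf := by
      have e1 : (Icc (a + (δ + 1 : ℕ)) (b + (δ + 1 : ℕ))) \ (Icc (a + δ) (b + δ)) ⊆ {b + (δ + 1 : ℕ)} := by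
        intro k hk
        rw [Finset.mem_sdiff, mem_Icc, mem_Icc] at hk
        rw [mem_singleton]
        push_cast at hk ⊢
        omega
      have e2 : (Icc (a + δ) (b + δ)) \ (Icc (a + (δ + 1 : ℕ)) (b + (δ + 1 : ℕ))) ⊆ {a + (δ : ℤ)} := by
        intro k hk
        rw [Finset.mem_sdiff, mem_Icc, mem_Icc] at hk
        rw [mem_singleton]
        push_cast at hk ⊢
        omega
      have aux : ∀ (S : Finset ℤ) (x : ℤ), S ⊆ {x} → |∑ k ∈ S, f k| ≤ Kf := by
        intro S x hS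
        rcases subset_singleton_iff.1 hS with h | h
        · rw [h, sum_empty, abs_zero]; exact hK0
        · rw [h, sum_singleton]; exact hf x
      have e3 : ∑ k ∈ Icc (a + (δ + 1 : ℕ)) (b + (δ + 1 : ℕ)), f k - ∑ k ∈ Icc (a + δ) (b + δ), f k =
          ∑ k ∈ (Icc (a + (δ + 1 : ℕ)) (b + (δ + 1 : ℕ))) \ (Icc (a + δ) (b + δ)), f k -
          ∑ k ∈ (Icc (a + δ) (b + δ)) \ (Icc (a + (δ + 1 : ℕ)) (b + (δ + 1 : ℕ))), f k := by
        rw [← sum_sdiff_sub_sum_sdiff]
      rw [e3]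
      refine (abs_sub _ _).trans ?_
      have := aux _ _ e1
      have := aux _ _ e2
      linarith
    have e4 : ∑ k ∈ Icc (a + (δ + 1 : ℕ)) (b + (δ + 1 : ℕ)), f k - ∑ k ∈ Icc a b, f k =
        (∑ k ∈ Icc (a + (δ + 1 : ℕ)) (b + (δ + 1 : ℕ)), f k - ∑ k ∈ Icc (a + δ) (b + δ), f k) +
        (∑ k ∈ Icc (a + δ) (b + δ), f k - ∑ k ∈ Icc a b, f k) := by ring
    rw [e4]
    refine (abs_add_le _ _).trans ?_
    have e5 : 2 * ((δ + 1 : ℕ) : ℝ) * Kf = 2 * δ * Kf + 2 * Kf := by push_cast; ring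
    rw [e5]
    linarith

/-- the correlation as a sum over an interval -/
theorem cor_eq (f : ℤ → ℝ) (X n n' : ℕ) : cor f X n n' =
    ∑ k ∈ Icc ((n : ℤ) ^ 2 - X) ((n : ℤ) ^ 2 + X), f k * f (k + ((n' : ℤ) ^ 2 - (n : ℤ) ^ 2)) := by
  unfold cor
  apply sum_nbij' (fun c => (n : ℤ) ^ 2 + c) (fun k => k - (n : ℤ) ^ 2)
  · intro k hk; rw [mem_Icc] at hk ⊢; constructor <;> linarith [hk.1, hk.2]
  · intro k hk; rw [mem_Icc] at hk ⊢; constructor <;> linarith [hk.1, hk.2]
  · intro k _; ring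
  · intro k _; ring
  · intro k _
    congr 2
    ring

end Run7.h376.CGS
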