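import Pool.Agent.Run7.h376.CGS.A2

/-!
# Project SYS, piece CG, part B: one block
-/

set_option autoImplicit false

namespace Run7.h376.CGS

open Finset Filter Topology
open Run7.h285.S
open Pool.Agent.TH892.SW (ff ffn wt wt_nonneg wt_le wt_anti pp_sum lamz_le)
open Pool.Agent.H373R2.T7 (lamz Vz lamI lamzI lamz_nonneg)
open Pool.Agent.H807R2.Dav

/-- the error of the replacement of the weights -/
noncomputable def RR (N : ℕ) (Dm T L : ℝ) : ℝ :=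
  3 * √((2 * N : ℕ) : ℝ) * Real.log ((2 * N : ℕ) : ℝ) + 3 / 2 * L +
    (Real.log ((2 * N : ℕ) : ℝ) + L) * (3 / 2 * T + N * (Dm / (T - Dm)))

theorem rep1 {z N : ℕ} (hz : 1 ≤ z) {Y : ℤ} {Dm T L : ℝ} (hL : 0 ≤ L) (hN : 2 ≤ N) (hY : |(Y : ℝ)| ≤ Dm)
    (hDN : Dm ≤ N) (hT : Dm + 4 ≤ T) (hV : (Vz z)⁻¹ ≤ L) (g : ℕ → ℝ) (hg : ∀ t, |g t| ≤ 3 * L) :
    |∑ t ∈ Icc 1 N, g t * ff z ((t : ℤ) + Y)| ≤
      |∑ t ∈ Icc 1 N, (g t * wt t) * (lamI ((t : ℤ) + Y) - lamzI z ((t : ℤ) + Y))| + 3 * L * RR N Dm T L := by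
  have h1 := repl_sum hz hN hY hDN hT hV
  have h2 : ∑ t ∈ Icc 1 N, g t * ff z ((t : ℤ) + Y) =
      ∑ t ∈ Icc 1 N, (g t * wt t) * (lamI ((t : ℤ) + Y) - lamzI z ((t : ℤ) + Y)) +
      ∑ t ∈ Icc 1 N, g t * (ff z ((t : ℤ) + Y) - wt t * (lamI ((t : ℤ) + Y) - lamzI z ((t : ℤ) + Y))) := by
    rw [← sum_add_distrib]
    apply sum_congr rfl
    intro t _
    ring
  have h3 : |∑ t ∈ Icc 1 N, g t * (ff z ((t : ℤ) + Y) - wt t * (lamI ((t : ℤ) + Y) - lamzI z ((t : ℤ) + Y)))| ≤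
      3 * L * RR N Dm T L := by
    calc _ ≤ ∑ t ∈ Icc 1 N, |g t * (ff z ((t : ℤ) + Y) - wt t * (lamI ((t : ℤ) + Y) - lamzI z ((t : ℤ) + Y)))| :=
          abs_sum_le_sum_abs _ _
      _ ≤ ∑ t ∈ Icc 1 N, 3 * L * |ff z ((t : ℤ) + Y) - wt t * (lamI ((t : ℤ) + Y) - lamzI z ((t : ℤ) + Y))| := by
          apply sum_le_sum
          intro t _
          rw [abs_mul]
          exact mul_le_mul_of_nonneg_right (hg t) (abs_nonneg _)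
      _ = 3 * L * ∑ t ∈ Icc 1 N, |ff z ((t : ℤ) + Y) - wt t * (lamI ((t : ℤ) + Y) - lamzI z ((t : ℤ) + Y))| := by
          rw [mul_sum]
      _ ≤ _ := mul_le_mul_of_nonneg_left h1 (by linarith)
  rw [h2]
  exact (abs_add_le _ _).trans (by linarith)

/-- the shift -/
def Dsh (i j m : ℕ) : ℤ := (((j - i : ℕ) : ℤ)) * (2 * (m : ℤ) + ((i + j : ℕ) : ℤ))

theorem Dsh_eq {i j : ℕ} (hij : i < j) (m : ℕ) : Dsh i j m = ((m + j : ℕ) : ℤ) ^ 2 - ((m + i : ℕ) : ℤ) ^ 2 := by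
  unfold Dsh
  push_cast [Nat.cast_sub hij.le]
  ring

theorem cor_pt {z N X s M₁ i j m : ℕ} (hij : i < j) (hz : 1 ≤ z) {L Dm Δ T : ℝ} (hL : 1 ≤ L)
    (hff : ∀ y : ℤ, |ff z y| ≤ 3 * L) (hV : (Vz z)⁻¹ ≤ L) (hN : 2 ≤ N)
    (hNX : (s + i) ^ 2 + X ≤ N) (hm : m ∈ Ioc s (s + M₁))
    (hD : ((Dsh i j m : ℤ) : ℝ) ≤ Dm)
    (hΔ : ((m : ℝ) + i) ^ 2 - ((s : ℝ) + i) ^ 2 ≤ Δ)
    (hDN : Dm ≤ N) (hT : Dm + 4 ≤ T) :
    |cor (gg z) X (m + i) (m + j)| ≤ 72 * L ^ 2 * Δ + 9 * L ^ 2 * Dm + 6 * L * RR N Dm T L +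
      |∑ t ∈ Icc 1 N, ((if (t : ℤ) ∈ Icc (((s + i : ℕ) : ℤ) ^ 2 - X) (((s + i : ℕ) : ℤ) ^ 2 + X) then ff z t else 0) * wt t) *
        (lamI ((t : ℤ) + 1 * Dsh i j m) - lamzI z ((t : ℤ) + 1 * Dsh i j m))| +
      |∑ t ∈ Icc 1 N, ((if -(t : ℤ) ∈ Icc (((s + i : ℕ) : ℤ) ^ 2 - X) (((s + i : ℕ) : ℤ) ^ 2 + X) then ff z t else 0) * wt t) *
        (lamI ((t : ℤ) + -1 * Dsh i j m) - lamzI z ((t : ℤ) + -1 * Dsh i j m))| := by
  rw [mem_Ioc] at hm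
  obtain ⟨D, hDdef⟩ : ∃ D : ℤ, D = Dsh i j m := ⟨_, rfl⟩
  obtain ⟨a, ha⟩ : ∃ a : ℤ, a = ((s + i : ℕ) : ℤ) ^ 2 - X := ⟨_, rfl⟩
  obtain ⟨b, hb⟩ : ∃ b : ℤ, b = ((s + i : ℕ) : ℤ) ^ 2 + X := ⟨_, rfl⟩
  rw [← ha, ← hb, ← hDdef]
  rw [← hDdef] at hD
  have hDeq : D = ((m + j : ℕ) : ℤ) ^ 2 - ((m + i : ℕ) : ℤ) ^ 2 := by rw [hDdef, Dsh_eq hij]
  have hD0 : 0 ≤ D := by
    rw [hDdef]; unfold Dsh; positivity
  have hD0' : (0 : ℝ) ≤ D := by exact_mod_cast hD0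
  have hDm0 : 0 ≤ Dm := hD0'.trans hD
  have hgg : ∀ k : ℤ, |gg z k| ≤ 6 * L := by
    intro k
    unfold gg
    refine (abs_add_le _ _).trans ?_
    have := hff (1 * k)
    have := hff (-1 * k)
    linarith
  -- the shift of the interval
  obtain ⟨δ, hδ⟩ : ∃ δ : ℕ, (δ : ℤ) = ((m + i : ℕ) : ℤ) ^ 2 - ((s + i : ℕ) : ℤ) ^ 2 := by
    refine ⟨(m + i) ^ 2 - (s + i) ^ 2, ?_⟩
    rw [Nat.cast_sub (Nat.pow_le_pow_left (by omega) 2)]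
    push_cast
    ring
  have hδr : (δ : ℝ) ≤ Δ := by
    have : (δ : ℝ) = ((m : ℝ) + i) ^ 2 - ((s : ℝ) + i) ^ 2 := by exact_mod_cast hδ
    rw [this]; exact hΔ
  have e1 : cor (gg z) X (m + i) (m + j) =
      ∑ k ∈ Icc (a + δ) (b + δ), gg z k * gg z (k + D) := by
    rw [cor_eq, hDeq, ha, hb, hδ]
    congr 2 <;> ring
  have h1 := icc_shift (f := fun k => gg z k * gg z (k + D)) (Kf := 36 * L ^ 2) (by
    intro k
    rw [abs_mul]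
    have := mul_le_mul (hgg k) (hgg (k + D)) (abs_nonneg _) (by linarith : (0 : ℝ) ≤ 6 * L)
    linarith [this, (by ring : 6 * L * (6 * L) = 36 * L ^ 2)]) a b δ
  rw [← e1] at h1
  have hbN : b ≤ N := by
    rw [hb]
    exact_mod_cast hNX
  have haN : -a ≤ N := by
    rw [ha]
    have h3 : X ≤ N := le_trans (Nat.le_add_left _ _) hNX
    have h4 : (X : ℤ) ≤ N := by exact_mod_cast h3
    have h5 : (0 : ℤ) ≤ ((s + i : ℕ) : ℤ) ^ 2 := by positivity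
    linarith
  have h2 := cor_split (z := z) hbN haN hD0
  -- the three parts
  have hDabs : |((1 * D : ℤ) : ℝ)| ≤ Dm := by
    rw [one_mul, abs_of_nonneg hD0']; exact hD
  have hDabs' : |((-1 * D : ℤ) : ℝ)| ≤ Dm := by
    rw [neg_one_mul, Int.cast_neg, abs_neg, abs_of_nonneg hD0']; exact hD
  have hL0 : (0 : ℝ) ≤ L := by linarith
  have h3 := rep1 hz hL0 hN hDabs hDN hT hV (fun t => if (t : ℤ) ∈ Icc a b then ff z t else 0) (by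
    intro t
    split_ifs
    · exact hff _
    · rw [abs_zero]; linarith)
  have h4 := rep1 hz hL0 hN hDabs' hDN hT hV (fun t => if -(t : ℤ) ∈ Icc a b then ff z t else 0) (by
    intro t
    split_ifs
    · exact hff _
    · rw [abs_zero]; linarith)
  have h5 : |∑ t ∈ Icc 1 N, (if -(t : ℤ) ∈ Icc a b then ff z t else 0) * ff z (D - (t : ℤ))| ≤ 9 * L ^ 2 * Dm := by
    calc _ ≤ ∑ t ∈ Icc 1 N, |(if -(t : ℤ) ∈ Icc a b then ff z t else 0) * ff z (D - (t : ℤ))| :=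
          abs_sum_le_sum_abs _ _
      _ ≤ ∑ t ∈ Icc 1 N, (if (t : ℤ) ≤ D then 9 * L ^ 2 else 0) := by
          apply sum_le_sum
          intro t _
          split_ifs with h6 h7 h7
          · rw [abs_mul]
            have := mul_le_mul (hff t) (hff (D - t)) (abs_nonneg _) (by linarith : (0 : ℝ) ≤ 3 * L)
            linarith [(by ring : 3 * L * (3 * L) = 9 * L ^ 2)]
          · rw [ff_neg (y := D - t) (by omega), mul_zero, abs_zero]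
          · rw [zero_mul, abs_zero]; positivity
          · rw [zero_mul, abs_zero]
      _ ≤ ∑ t ∈ Icc 1 D.toNat, 9 * L ^ 2 := by
          rw [← sum_filter]
          apply sum_le_sum_of_subset_of_nonneg
          · intro t ht
            rw [mem_filter, mem_Icc] at ht
            rw [mem_Icc]
            omega
          · intro t _ _
            positivity
      _ = D.toNat * (9 * L ^ 2) := by
          rw [sum_const, Nat.card_Icc, nsmul_eq_mul, Nat.add_sub_cancel]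
      _ ≤ Dm * (9 * L ^ 2) := by
          apply mul_le_mul_of_nonneg_right _ (by positivity)
          have : ((D.toNat : ℕ) : ℤ) = D := Int.toNat_of_nonneg hD0
          have : ((D.toNat : ℕ) : ℝ) = D := by exact_mod_cast this
          rw [this]; exact hD
      _ = _ := by ring
  have h6 : |∑ k ∈ Icc a b, gg z k * gg z (k + D)| ≤
      |∑ t ∈ Icc 1 N, (if (t : ℤ) ∈ Icc a b then ff z t else 0) * ff z ((t : ℤ) + 1 * D)| +
      |∑ t ∈ Icc 1 N, (if -(t : ℤ) ∈ Icc a b then ff z t else 0) * ff z ((t : ℤ) + -1 * D)| +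
      |∑ t ∈ Icc 1 N, (if -(t : ℤ) ∈ Icc a b then ff z t else 0) * ff z (D - (t : ℤ))| := by
    rw [h2, one_mul, neg_one_mul]
    exact (abs_add_le _ _).trans (add_le_add (abs_add_le _ _) le_rfl)
  have h7 : 2 * (δ : ℝ) * (36 * L ^ 2) ≤ 72 * L ^ 2 * Δ := by
    have : 0 ≤ L ^ 2 := by positivity
    nlinarith
  have h8 : |cor (gg z) X (m + i) (m + j)| ≤
      |cor (gg z) X (m + i) (m + j) - ∑ k ∈ Icc a b, gg z k * gg z (k + D)| +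
      |∑ k ∈ Icc a b, gg z k * gg z (k + D)| := by
    have := abs_add_le (cor (gg z) X (m + i) (m + j) - ∑ k ∈ Icc a b, gg z k * gg z (k + D))
      (∑ k ∈ Icc a b, gg z k * gg z (k + D))
    rwa [sub_add_cancel] at this
  linarith

theorem block {z N X s M₁ i j : ℕ} (hij : i < j) (hz : 1 ≤ z) {L Dm Δ T Q : ℝ} (hL : 1 ≤ L)
    (hff : ∀ y : ℤ, |ff z y| ≤ 3 * L) (hV : (Vz z)⁻¹ ≤ L) (hN : 2 ≤ N) (hM : 1 ≤ M₁)
    (hNX : (s + i) ^ 2 + X ≤ N)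
    (hD : ∀ m ∈ Ioc s (s + M₁), ((Dsh i j m : ℤ) : ℝ) ≤ Dm)
    (hΔ : ∀ m ∈ Ioc s (s + M₁), ((m : ℝ) + i) ^ 2 - ((s : ℝ) + i) ^ 2 ≤ Δ)
    (hDN : Dm ≤ N) (hT : Dm + 4 ≤ T)
    (hlaw : ∀ σ : ℤ, σ = 1 ∨ σ = -1 → ∀ G : ℕ → ℝ, (∀ n ∈ Icc 1 N, |G n| ≤ 9 / 2 * L) →
      ∑ m ∈ Ioc s (s + M₁), (1 / (M₁ : ℝ)) *
        |∑ n ∈ Icc 1 N, G n * (lamI ((n : ℤ) + σ * Dsh i j m) - lamzI z ((n : ℤ) + σ * Dsh i j m))| ≤ Q) :
    ∑ m ∈ Ioc s (s + M₁), |cor (gg z) X (m + i) (m + j)| ≤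
      M₁ * (72 * L ^ 2 * Δ + 9 * L ^ 2 * Dm + 6 * L * RR N Dm T L + 2 * Q) := by
  have hM0 : (0 : ℝ) < M₁ := by exact_mod_cast hM
  obtain ⟨a, ha⟩ : ∃ a : ℤ, a = ((s + i : ℕ) : ℤ) ^ 2 - X := ⟨_, rfl⟩
  obtain ⟨b, hb⟩ : ∃ b : ℤ, b = ((s + i : ℕ) : ℤ) ^ 2 + X := ⟨_, rfl⟩
  have hG : ∀ (P : ℕ → Prop) [DecidablePred P], ∀ n ∈ Icc 1 N, |(if P n then ff z n else 0) * wt n| ≤ 9 / 2 * L := by
    intro P _ n _
    rw [abs_mul, abs_of_nonneg (wt_nonneg n)]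
    have h1 : |(if P n then ff z n else 0)| ≤ 3 * L := by
      split_ifs
      · exact hff _
      · rw [abs_zero]; linarith
    have := mul_le_mul h1 (wt_le' n) (wt_nonneg n) (by linarith)
    linarith
  have l1 := hlaw 1 (Or.inl rfl) (fun t => (if (t : ℤ) ∈ Icc a b then ff z t else 0) * wt t)
    (hG (fun t => (t : ℤ) ∈ Icc a b))
  have l2 := hlaw (-1) (Or.inr rfl) (fun t => (if -(t : ℤ) ∈ Icc a b then ff z t else 0) * wt t)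
    (hG (fun t => -(t : ℤ) ∈ Icc a b))
  rw [← mul_sum, one_div, inv_mul_le_iff₀ hM0] at l1 l2
  have hsum : ∑ m ∈ Ioc s (s + M₁), |cor (gg z) X (m + i) (m + j)| ≤ ∑ m ∈ Ioc s (s + M₁),
      ((72 * L ^ 2 * Δ + 9 * L ^ 2 * Dm + 6 * L * RR N Dm T L) +
      |∑ t ∈ Icc 1 N, ((if (t : ℤ) ∈ Icc a b then ff z t else 0) * wt t) *
        (lamI ((t : ℤ) + 1 * Dsh i j m) - lamzI z ((t : ℤ) + 1 * Dsh i j m))| +
      |∑ t ∈ Icc 1 N, ((if -(t : ℤ) ∈ Icc a b then ff z t else 0) * wt t) *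
        (lamI ((t : ℤ) + -1 * Dsh i j m) - lamzI z ((t : ℤ) + -1 * Dsh i j m))|) := by
    apply sum_le_sum
    intro m hm
    rw [ha, hb]
    exact cor_pt hij hz hL hff hV hN hNX hm (hD m hm) (hΔ m hm) hDN hT
  rw [sum_add_distrib, sum_add_distrib, sum_const, Nat.card_Ioc, nsmul_eq_mul, Nat.add_sub_cancel_left] at hsum
  linarith

end Run7.h376.CGS
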