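import Pool.Agent.Run7.h376.CGS.B
import Pool.Agent.Run7.h794.MK.Stm2

/-!
# Project SYS, piece CG, part C: the law in one block
-/

set_option autoImplicit false

namespace Run7.h376.CGS

open Finset Filter Topology
open Run7.h285.S
open Pool.Agent.H373R2.T7 (lamz Vz lamI lamzI lamz_nonneg)
open Pool.Agent.H807R2.Dav

theorem law_blk (h : Pool.Agent.Run7.h794.MK.S_LAW') (U' D : ℕ) : ∃ V C' B₀ : ℕ, ∀ E : ℕ, ∃ N₀ : ℕ,
    ∀ N : ℕ, N₀ ≤ N → ∀ z : ℕ, Real.log N ^ B₀ ≤ z → (z : ℝ) ≤ Real.log N ^ E → ∀ s M₁ i j H : ℕ, i < j →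
    2 * (j : ℝ) ≤ Real.log N ^ (D + 1) → 1 ≤ M₁ → 1 ≤ H → 0 < Real.log N →
    (∀ m ∈ Ioc s (s + M₁), ((Dsh i j m : ℤ) : ℝ) ≤ N) → 6 * j ≤ N →
    (N : ℝ) ^ (1 / 3 : ℝ) * Real.log N ^ C' ≤ H → (H : ℝ) * Real.log N ^ V ≤ M₁ * Real.log N →
    ∀ L : ℝ, 0 < L → ∀ σ : ℤ, σ = 1 ∨ σ = -1 → ∀ G : ℕ → ℝ, (∀ n ∈ Icc 1 N, |G n| ≤ 9 / 2 * L) →
      ∑ m ∈ Ioc s (s + M₁), (1 / (M₁ : ℝ)) *
        |∑ n ∈ Icc 1 N, G n * (lamI ((n : ℤ) + σ * Dsh i j m) - lamzI z ((n : ℤ) + σ * Dsh i j m))| ≤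
        9 / 2 * L * (N / Real.log N ^ U') := by
  obtain ⟨V, hV⟩ := h 1 U'
  obtain ⟨C', B₀, h1⟩ := hV (D + 1) 1
  refine ⟨V, C', B₀, fun E => ?_⟩
  obtain ⟨N₀, h2⟩ := h1 E
  refine ⟨N₀, fun N hN z hz1 hz2 s M₁ i j H hij hj hM hH hlog hD h6 hHC hHV L hL σ hσ G hG => ?_⟩
  have hd1 : 1 ≤ j - i := by omega
  have hN1 : 1 ≤ N := by omega
  have hM0 : (0 : ℝ) < M₁ := by exact_mod_cast hM
  have hσa : |(σ : ℤ)| = 1 := by rcases hσ with h | h <;> rw [h] <;> rfl
  apply h2 N hN z hz1 hz2 (6 * (j - i) * N) ?_ ?_ ℕ (Ioc s (s + M₁)) (fun _ => 1 / (M₁ : ℝ)) (fun m => σ * Dsh i j m)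
    ?_ ?_ ?_ H hHC ((range (2 * (j - i))).image (fun c : ℕ => ((3 * N * c : ℕ) : ℤ))) ?_ ?_ (9 / 2 * L) (by linarith) G hG
  · have : 1 * N ≤ (j - i) * N := Nat.mul_le_mul_right _ hd1
    nlinarith
  · rw [sq]
    apply Nat.mul_le_mul_right
    omega
  · intro _ _
    positivity
  · rw [sum_const, Nat.card_Ioc, nsmul_eq_mul, Nat.add_sub_cancel_left]
    rw [mul_one_div, div_self hM0.ne']
  · intro m hm
    rw [abs_mul, hσa, one_mul]
    have h0 : 0 ≤ Dsh i j m := by unfold Dsh; positivity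
    rw [abs_of_nonneg h0]
    have h3 := hD m hm
    have h4 : Dsh i j m ≤ (N : ℤ) := by exact_mod_cast h3
    push_cast
    linarith
  · have hc : ((range (2 * (j - i))).image (fun c : ℕ => ((3 * N * c : ℕ) : ℤ))).card ≤ 2 * (j - i) := by
      refine card_image_le.trans ?_
      rw [card_range]
    have hc2 : ((range (2 * (j - i))).image (fun c : ℕ => ((3 * N * c : ℕ) : ℤ))).card ≤ 2 * j := hc.trans (by omega)
    have hc3 : ((((range (2 * (j - i))).image (fun c : ℕ => ((3 * N * c : ℕ) : ℤ))).card : ℕ) : ℝ) ≤ 2 * (j : ℝ) := by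
      exact_mod_cast hc2
    exact hc3.trans hj
  · intro t ht
    have h3 := fourier_blk (s := s) (M := M₁) (d := j - i) (N := N) (e0 := i + j) (H := H) hσ hd1 hM hN1 hH hlog t
      (by
        intro c hc k
        have := ht _ (mem_image_of_mem _ hc) k
        rw [pow_one] at this
        exact this)
    refine le_trans h3 ?_
    rw [div_le_div_iff₀ (by positivity) (by positivity), one_mul]
    exact hHV

/-- powers of the logarithm -/
theorem evt_pow (n : ℕ) : ∀ᶠ X : ℕ in atTop, Real.log X ^ n ≤ (X : ℝ) ^ (1 / 12 : ℝ) := by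
  have h1 := (isLittleO_log_rpow_rpow_atTop (s := (1 / 12 : ℝ)) (n : ℝ) (by norm_num)).bound (show (0 : ℝ) < 1 by norm_num)
  have h2 := (tendsto_natCast_atTop_atTop (R := ℝ)).eventually h1
  filter_upwards [h2, eventually_ge_atTop 1] with X h3 h4
  have h5 : 0 ≤ Real.log (X : ℝ) := Real.log_natCast_nonneg _
  have h6 : (0 : ℝ) ≤ X := Nat.cast_nonneg _
  rw [Real.norm_of_nonneg (by positivity), Real.norm_of_nonneg (by positivity), one_mul, Real.rpow_natCast] at h3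
  exact h3

theorem evt_logge (c : ℝ) : ∀ᶠ X : ℕ in atTop, c ≤ Real.log (X : ℝ) :=
  (Real.tendsto_log_atTop.comp (tendsto_natCast_atTop_atTop (R := ℝ))).eventually_ge_atTop c

/-- the final inequality -/
theorem final_ineq {X L : ℝ} {N U C D : ℕ} (hL : 10 ≤ L) (hX : 1 ≤ X)
    (hXL : L ^ (3 * C + D + 2 * U + 30) ≤ √X) (hN : (N : ℝ) ≤ 2 * (X * L ^ (2 * C + 3)))
    (hlog2 : Real.log ((2 * N : ℕ) : ℝ) ≤ 2 * L) (hlog : L ≤ Real.log N) :
    72 * L ^ 2 * (6 * (X * L ^ C) / L ^ (C + U + 8)) + 9 * L ^ 2 * (6 * (√X * L ^ (C + D))) +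
      6 * L * RR N (6 * (√X * L ^ (C + D))) (2 * X / L ^ (U + 9)) L +
      2 * (9 / 2 * L * (N / Real.log N ^ (U + 2 * C + 10))) ≤ 1000 * (X / L ^ (U + 6)) := by
  obtain ⟨S, hS⟩ : ∃ S, S = √X := ⟨_, rfl⟩
  have hS0 : 0 ≤ S := by rw [hS]; positivity
  have hSS : S * S = X := by rw [hS]; exact Real.mul_self_sqrt (by linarith)
  rw [← hS] at hXL ⊢
  have hL0 : 0 < L := by linarith
  have hL1 : 1 ≤ L := by linarith
  have hLp : ∀ n, 0 < L ^ n := fun n => by positivity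
  obtain ⟨w, hw⟩ : ∃ w, w = X / L ^ (U + 6) := ⟨_, rfl⟩
  have hw0 : 0 ≤ w := by rw [hw]; positivity
  have hkey : ∀ n k : ℕ, n + k ≤ 3 * C + D + 2 * U + 30 → S * L ^ n ≤ X / L ^ k := by
    intro n k hnk
    rw [le_div_iff₀ (hLp _)]
    calc S * L ^ n * L ^ k = S * L ^ (n + k) := by rw [pow_add]; ring
      _ ≤ S * L ^ (3 * C + D + 2 * U + 30) := mul_le_mul_of_nonneg_left (pow_le_pow_right₀ hL1 hnk) hS0
      _ ≤ S * S := mul_le_mul_of_nonneg_left hXL hS0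
      _ = X := hSS
  have hS1 : 1 ≤ S := le_trans (one_le_pow₀ hL1) hXL
  rw [← hw]
  have t1 : 72 * L ^ 2 * (6 * (X * L ^ C) / L ^ (C + U + 8)) = 432 * w := by
    rw [hw]
    have : L ^ (C + U + 8) = L ^ C * L ^ (U + 6) * L ^ 2 := by ring
    rw [this]
    field_simp
    ring
  have t2 : 9 * L ^ 2 * (6 * (S * L ^ (C + D))) ≤ 54 * w := by
    have : 9 * L ^ 2 * (6 * (S * L ^ (C + D))) = 54 * (S * L ^ (C + D + 2)) := by
      rw [pow_add L (C + D) 2]; ring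
    rw [this, hw]
    exact mul_le_mul_of_nonneg_left (hkey _ _ (by omega)) (by norm_num)
  have t4 : 2 * (9 / 2 * L * (N / Real.log N ^ (U + 2 * C + 10))) ≤ 18 * w := by
    have h1 : (N : ℝ) / Real.log N ^ (U + 2 * C + 10) ≤ 2 * (X * L ^ (2 * C + 3)) / L ^ (U + 2 * C + 10) := by
      apply div_le_div₀ (by positivity) hN (hLp _)
      exact pow_le_pow_left₀ hL0.le hlog _
    have h2 : 2 * (9 / 2 * L * (2 * (X * L ^ (2 * C + 3)) / L ^ (U + 2 * C + 10))) = 18 * w := by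
      rw [hw]
      have : L ^ (U + 2 * C + 10) = L ^ (2 * C + 3) * L ^ (U + 6) * L := by
        rw [← pow_add, ← pow_succ]; congr 1; omega
      rw [this]
      field_simp
      ring
    rw [← h2]
    gcongr
  -- the error of the replacement
  have r1 : √((2 * N : ℕ) : ℝ) ≤ 2 * (S * L ^ (C + 2)) := by
    apply Real.sqrt_le_iff.2
    refine ⟨by positivity, ?_⟩
    have h1 : (2 * (S * L ^ (C + 2))) ^ 2 = 4 * (X * (L ^ (2 * C + 3) * L)) := by
      rw [← pow_succ, ← hSS]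
      have : L ^ (2 * C + 3 + 1) = L ^ (C + 2) * L ^ (C + 2) := by rw [← pow_add]; congr 1; omega
      rw [this]; ring
    rw [h1]
    push_cast
    have h2 : X * L ^ (2 * C + 3) ≤ X * (L ^ (2 * C + 3) * L) := by
      have : L ^ (2 * C + 3) * 1 ≤ L ^ (2 * C + 3) * L := mul_le_mul_of_nonneg_left hL1 (hLp _).le
      rw [mul_one] at this
      exact mul_le_mul_of_nonneg_left this (by linarith)
    linarith
  have hTD : X / L ^ (U + 9) ≤ 2 * X / L ^ (U + 9) - 6 * (S * L ^ (C + D)) := by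
    have h1 : 6 * (S * L ^ (C + D)) ≤ S * L ^ (C + D + 1) := by
      rw [pow_succ]
      have : 0 ≤ S * L ^ (C + D) := by positivity
      nlinarith
    have h2 := hkey (C + D + 1) (U + 9) (by omega)
    have h3 : 2 * X / L ^ (U + 9) = X / L ^ (U + 9) + X / L ^ (U + 9) := by ring
    linarith
  have r2 : (N : ℝ) * (6 * (S * L ^ (C + D)) / (2 * X / L ^ (U + 9) - 6 * (S * L ^ (C + D)))) ≤
      12 * (S * L ^ (3 * C + D + U + 12)) := by
    have h1 : 6 * (S * L ^ (C + D)) / (2 * X / L ^ (U + 9) - 6 * (S * L ^ (C + D))) ≤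
        6 * (S * L ^ (C + D)) / (X / L ^ (U + 9)) := by
      apply div_le_div_of_nonneg_left (by positivity) (by positivity) hTD
    have h2 : 2 * (X * L ^ (2 * C + 3)) * (6 * (S * L ^ (C + D)) / (X / L ^ (U + 9))) =
        12 * (S * L ^ (3 * C + D + U + 12)) := by
      have : L ^ (3 * C + D + U + 12) = L ^ (2 * C + 3) * L ^ (C + D) * L ^ (U + 9) := by
        rw [← pow_add, ← pow_add]; congr 1; omega
      rw [this]
      field_simp
      ring
    rw [← h2]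
    apply mul_le_mul hN h1 _ (by positivity)
    apply div_nonneg (by positivity)
    have : 0 ≤ X / L ^ (U + 9) := by positivity
    linarith
  have hlog20 : 0 ≤ Real.log ((2 * N : ℕ) : ℝ) := Real.log_natCast_nonneg _
  have t3 : 6 * L * RR N (6 * (S * L ^ (C + D))) (2 * X / L ^ (U + 9)) L ≤ 351 * w := by
    have h1 : RR N (6 * (S * L ^ (C + D))) (2 * X / L ^ (U + 9)) L ≤
        3 * (2 * (S * L ^ (C + 2))) * (2 * L) + 3 / 2 * L +
        (2 * L + L) * (3 / 2 * (2 * X / L ^ (U + 9)) + 12 * (S * L ^ (3 * C + D + U + 12))) := by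
      unfold RR
      have hTD0 : 0 < 2 * X / L ^ (U + 9) - 6 * (S * L ^ (C + D)) := by
        have : 0 < X / L ^ (U + 9) := by positivity
        linarith
      have h3 : 0 ≤ 6 * (S * L ^ (C + D)) / (2 * X / L ^ (U + 9) - 6 * (S * L ^ (C + D))) :=
        div_nonneg (by positivity) hTD0.le
      gcongr
    refine (mul_le_mul_of_nonneg_left h1 (by positivity)).trans ?_
    have e1 : 6 * L * (3 * (2 * (S * L ^ (C + 2))) * (2 * L) + 3 / 2 * L +
        (2 * L + L) * (3 / 2 * (2 * X / L ^ (U + 9)) + 12 * (S * L ^ (3 * C + D + U + 12)))) =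
        72 * (S * L ^ (C + 4)) + 9 * L ^ 2 + 54 * (L ^ 2 * X / L ^ (U + 9)) +
          216 * (S * L ^ (3 * C + D + U + 14)) := by
      have p1 : L ^ (C + 4) = L ^ (C + 2) * (L * L) := by rw [← pow_two, ← pow_add]
      have p2 : L ^ (3 * C + D + U + 14) = L ^ (3 * C + D + U + 12) * (L * L) := by rw [← pow_two, ← pow_add]
      rw [p1, p2]
      field_simp
      ring
    rw [e1]
    have q1 : S * L ^ (C + 4) ≤ w := by rw [hw]; exact hkey _ _ (by omega)
    have q2 : L ^ 2 ≤ w := by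
      rw [hw]
      refine le_trans ?_ (hkey 2 (U + 6) (by omega))
      have := hLp 2
      nlinarith
    have q3 : L ^ 2 * X / L ^ (U + 9) ≤ w := by
      rw [hw, div_le_div_iff₀ (hLp _) (hLp _)]
      have : L ^ (U + 9) = L ^ 2 * L ^ (U + 6) * L := by rw [← pow_add, ← pow_succ]; congr 1; omega
      rw [this]
      have h2 : 0 ≤ L ^ 2 * X * L ^ (U + 6) := by positivity
      nlinarith
    have q4 : S * L ^ (3 * C + D + U + 14) ≤ w := by rw [hw]; exact hkey _ _ (by omega)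
    linarith
  rw [t1]
  linarith

end Run7.h376.CGS
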