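import Pool.Agent.Run7.h376.CGS.C

/-!
# Project SYS, piece CG
-/

set_option autoImplicit false

namespace Run7.h376.CGS

open Finset Filter Topology
open Run7.h285.S
open Pool.Agent.TH892.SW (ff)
open Pool.Agent.H373R2.T7 (lamz Vz lamI lamzI)

theorem aux_one {a b : ℝ} (ha : 1 ≤ a) (hb : 1 ≤ b) : 1 ≤ a * b := by nlinarith

theorem aux_add {a b : ℝ} (ha : 1 ≤ a) (hb : 2 ≤ b) : a + 1 ≤ a * b := by nlinarith

theorem aux_two {a b : ℝ} (ha : 1 ≤ a) (hb : 3 ≤ b) : 2 * a + 1 ≤ a * b := by nlinarith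

theorem aux_two2 {a b : ℝ} (ha : 1 ≤ a) (hb : 2 ≤ b) : 2 ≤ a * b := by nlinarith

theorem aux_c {c a b : ℝ} (ha : 0 ≤ a) (h : c ≤ b) : c * a ≤ a * b := by nlinarith

theorem sum_blocks (f : ℕ → ℝ) (m₀ M₁ A : ℕ) :
    ∑ m ∈ Ioc m₀ (m₀ + A * M₁), f m = ∑ a ∈ range A, ∑ m ∈ Ioc (m₀ + a * M₁) (m₀ + a * M₁ + M₁), f m := by
  induction A with
  | zero => simp
  | succ A ih =>
    rw [sum_range_succ, ← ih]
    have e : m₀ + (A + 1) * M₁ = m₀ + A * M₁ + M₁ := by ring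
    rw [e]
    exact (sum_Ioc_consecutive f (Nat.le_add_right _ _) (Nat.le_add_right _ _)).symm

theorem cg (h : Pool.Agent.Run7.h794.MK.S_LAW') : S_CG := by
  intro U C D
  obtain ⟨V, C', B₀, h1⟩ := law_blk h (U + 2 * C + 10) D
  refine ⟨B₀ + 2, fun E hE => ?_⟩
  obtain ⟨N₀, h2⟩ := h1 E
  obtain ⟨N1, hsq⟩ := Pool.Agent.TH892.SW.sq_ff E
  obtain ⟨N2, hVz⟩ := Pool.Agent.H373R2.T7.Vz_inv_small E
  obtain ⟨X₁, hX₁⟩ := eventually_atTop.1 ((evt_pow (3 * C + D + 2 * U + V + C' + 100)).and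
    ((evt_logge 100).and ((evt_logge (2 ^ B₀)).and ((evt_logge (2 ^ C')).and (evt_logge (2 ^ V))))))
  refine ⟨V + 2 * C + C' + 9, max X₁ (max N₀ (max N1 (max N2 1))), fun X hX m₀ M i j hij hj hM hmM => ?_⟩
  simp only [max_le_iff] at hX
  obtain ⟨hXa, hXb, hXc, hXd, hXe⟩ := hX
  obtain ⟨hpow, hL, hLB, hLC, hLV⟩ := hX₁ X hXa
  obtain ⟨L, hLdef⟩ : ∃ L, L = Real.log (X : ℝ) := ⟨_, rfl⟩
  rw [← hLdef] at hpow hL hLB hLC hLV hj hM hmM
  obtain ⟨nn, hnn⟩ : ∃ nn, nn = 3 * C + D + 2 * U + V + C' + 100 := ⟨_, rfl⟩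
  rw [← hnn] at hpow
  have hXr : (1 : ℝ) ≤ X := by exact_mod_cast hXe
  have hX0 : (0 : ℝ) < X := by linarith
  have hL0 : 0 < L := by linarith
  have hL1 : 1 ≤ L := by linarith
  have hLp : ∀ n, 0 < L ^ n := fun n => by positivity
  -- roots
  obtain ⟨Y, hY⟩ : ∃ Y, Y = (X : ℝ) ^ (1 / 12 : ℝ) := ⟨_, rfl⟩
  have hY12 : Y ^ 12 = X := by
    rw [hY, ← Real.rpow_natCast, ← Real.rpow_mul hX0.le]
    norm_num
  have hY6 : √(X : ℝ) = Y ^ 6 := by
    rw [Real.sqrt_eq_rpow, hY, ← Real.rpow_natCast, ← Real.rpow_mul hX0.le]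
    norm_num
  have hY4 : (X : ℝ) ^ (1 / 3 : ℝ) = Y ^ 4 := by
    rw [hY, ← Real.rpow_natCast, ← Real.rpow_mul hX0.le]
    norm_num
  rw [← hY] at hpow
  have hYL : ∀ n, n ≤ nn → L ^ n ≤ Y := fun n hn => (pow_le_pow_right₀ hL1 hn).trans hpow
  have hY1 : 1 ≤ Y := by simpa using hYL 0 (Nat.zero_le _)
  have hY0 : 0 < Y := by linarith
  rw [hY4] at hM
  obtain ⟨S, hS⟩ : ∃ S, S = √(X : ℝ) := ⟨_, rfl⟩
  have hS0 : 0 ≤ S := by rw [hS]; positivity
  have hSS : S * S = X := by rw [hS]; exact Real.mul_self_sqrt hX0.le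
  rw [← hS] at hmM hY6
  have hYS : Y ≤ S := by
    rw [hY6]
    calc Y = Y ^ 1 := (pow_one Y).symm
      _ ≤ Y ^ 6 := pow_le_pow_right₀ hY1 (by norm_num)
  have hS1 : 1 ≤ S := hY1.trans hYS
  have hSX : S ≤ X := by rw [← hSS]; exact le_mul_of_one_le_left hS0 hS1
  have hSL : ∀ n, n ≤ nn → L ^ n ≤ S := fun n hn => (hYL n hn).trans hYS
  -- the block length
  obtain ⟨K, hK⟩ : ∃ K, K = C + U + 8 := ⟨_, rfl⟩
  obtain ⟨M₁, hM₁⟩ : ∃ M₁, M₁ = min M ⌊S / L ^ K⌋₊ := ⟨_, rfl⟩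
  have hM₁a : M₁ ≤ M := by rw [hM₁]; exact min_le_left _ _
  have hM₁a' : (M₁ : ℝ) ≤ M := by exact_mod_cast hM₁a
  have hM₁b : (M₁ : ℝ) ≤ S / L ^ K := by
    have : M₁ ≤ ⌊S / L ^ K⌋₊ := by rw [hM₁]; exact min_le_right _ _
    exact (Nat.cast_le.2 this).trans (Nat.floor_le (by positivity))
  have hfl : Y ^ 4 * L ^ (V + 2 * C + C' + 9) ≤ (⌊S / L ^ K⌋₊ : ℝ) := by
    have f1 := Nat.lt_floor_add_one (S / L ^ K)
    have f2 : Y ^ 4 * L ^ (V + 2 * C + C' + 9) + 1 ≤ S / L ^ K := by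
      rw [le_div_iff₀ (hLp _)]
      have f3 : Y ^ 4 * L ^ (V + 2 * C + C' + 9) + 1 ≤ Y ^ 4 * L ^ (V + 2 * C + C' + 10) := by
        have g1 : 1 ≤ Y ^ 4 * L ^ (V + 2 * C + C' + 9) := by
          have a1 : 1 ≤ Y ^ 4 := one_le_pow₀ hY1
          have a2 : 1 ≤ L ^ (V + 2 * C + C' + 9) := one_le_pow₀ hL1
          exact aux_one a1 a2
        have g2 : Y ^ 4 * L ^ (V + 2 * C + C' + 10) = Y ^ 4 * L ^ (V + 2 * C + C' + 9) * L := by
          rw [mul_assoc, ← pow_succ]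
        rw [g2]
        exact aux_add g1 (by linarith)
      have f4 : L ^ (V + 2 * C + C' + 10 + K) ≤ Y := hYL _ (by omega)
      calc (Y ^ 4 * L ^ (V + 2 * C + C' + 9) + 1) * L ^ K ≤ Y ^ 4 * L ^ (V + 2 * C + C' + 10) * L ^ K :=
            mul_le_mul_of_nonneg_right f3 (hLp _).le
        _ = Y ^ 4 * L ^ (V + 2 * C + C' + 10 + K) := by rw [pow_add L (V + 2 * C + C' + 10) K]; ring
        _ ≤ Y ^ 4 * Y := mul_le_mul_of_nonneg_left f4 (by positivity)
        _ ≤ Y ^ 4 * Y * Y := by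
          have : 0 ≤ Y ^ 4 * Y := by positivity
          exact le_mul_of_one_le_right this hY1
        _ = S := by rw [hY6]; ring
    linarith
  have hM₁c : Y ^ 4 * L ^ (V + 2 * C + C' + 9) ≤ (M₁ : ℝ) := by
    rw [hM₁]
    rcases min_choice M ⌊S / L ^ K⌋₊ with hc | hc
    · rw [hc]; exact hM
    · rw [hc]; exact hfl
  have hM₁r : (1 : ℝ) ≤ M₁ := by
    refine le_trans ?_ hM₁c
    have a1 : 1 ≤ Y ^ 4 := one_le_pow₀ hY1
    have a2 : 1 ≤ L ^ (V + 2 * C + C' + 9) := one_le_pow₀ hL1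
    exact aux_one a1 a2
  have hM₁1 : 1 ≤ M₁ := by exact_mod_cast hM₁r
  -- the modulus
  obtain ⟨N, hN⟩ : ∃ N, N = ⌊(X : ℝ) * L ^ (2 * C + 3)⌋₊ + 1 := ⟨_, rfl⟩
  have hNlo : (X : ℝ) * L ^ (2 * C + 3) ≤ N := by
    rw [hN]; push_cast; exact (Nat.lt_floor_add_one _).le
  have hXX : (X : ℝ) ≤ X * L ^ (2 * C + 3) := by
    have : 1 ≤ L ^ (2 * C + 3) := one_le_pow₀ hL1
    exact le_mul_of_one_le_right hX0.le this
  have hNup : (N : ℝ) ≤ 2 * (X * L ^ (2 * C + 3)) := by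
    rw [hN]; push_cast
    have := Nat.floor_le (a := (X : ℝ) * L ^ (2 * C + 3)) (by positivity)
    linarith
  have hXN : (X : ℝ) ≤ N := hXX.trans hNlo
  have hXN' : X ≤ N := by exact_mod_cast hXN
  have hN0 : (0 : ℝ) < N := by linarith
  have hlogN : L ≤ Real.log N := by rw [hLdef]; exact Real.log_le_log hX0 hXN
  have hlog2N : Real.log ((2 * N : ℕ) : ℝ) ≤ 2 * L := by
    have a1 : ((2 * N : ℕ) : ℝ) ≤ (X : ℝ) * X := by
      push_cast
      have a2 : 4 * L ^ (2 * C + 3) ≤ X := by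
        have a3 : 4 * L ^ (2 * C + 3) ≤ L ^ (2 * C + 4) := by
          rw [pow_succ L (2 * C + 3)]
          have := hLp (2 * C + 3)
          exact aux_c this.le (by linarith)
        exact a3.trans ((hSL _ (by omega)).trans hSX)
      calc 2 * (N : ℝ) ≤ X * (4 * L ^ (2 * C + 3)) := by linarith
        _ ≤ X * X := mul_le_mul_of_nonneg_left a2 hX0.le
    have a3 : Real.log ((2 * N : ℕ) : ℝ) ≤ Real.log ((X : ℝ) * X) := by
      apply Real.log_le_log _ a1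
      push_cast
      linarith
    rw [Real.log_mul hX0.ne' hX0.ne', ← hLdef] at a3
    linarith
  have hlogN2 : Real.log N ≤ 2 * L := by
    refine le_trans (Real.log_le_log hN0 ?_) hlog2N
    push_cast
    linarith
  have hlogN0 : 0 < Real.log N := by linarith
  -- the sieve level
  obtain ⟨z, hz⟩ : ∃ z, z = ⌊L ^ E⌋₊ := ⟨_, rfl⟩
  have hz1 : 1 ≤ z := by
    rw [hz, Nat.le_floor_iff (by positivity)]
    simpa using one_le_pow₀ hL1
  have hzE : (z : ℝ) ≤ L ^ E := by rw [hz]; exact Nat.floor_le (by positivity)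
  have hzE' : (z : ℝ) ≤ Real.log N ^ E := hzE.trans (pow_le_pow_left₀ hL0.le hlogN _)
  have hzB : Real.log N ^ B₀ ≤ z := by
    have a1 : Real.log N ^ B₀ ≤ (2 * L) ^ B₀ := pow_le_pow_left₀ hlogN0.le hlogN2 _
    have a2 : (2 * L) ^ B₀ ≤ L ^ (B₀ + 1) := by
      rw [mul_pow, pow_succ, mul_comm]
      exact mul_le_mul_of_nonneg_left hLB (hLp _).le
    have a3 : L ^ (B₀ + 1) + 1 ≤ L ^ E := by
      have a4 : L ^ (B₀ + 2) ≤ L ^ E := pow_le_pow_right₀ hL1 hE
      have a5 : L ^ (B₀ + 2) = L ^ (B₀ + 1) * L := pow_succ _ _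
      have a6 : 1 ≤ L ^ (B₀ + 1) := one_le_pow₀ hL1
      exact (aux_add a6 (by linarith)).trans (a5 ▸ a4)
    have a4 := Nat.lt_floor_add_one (L ^ E)
    rw [← hz] at a4
    linarith
  have hff := (hsq X hXc z hz1 (by rw [← hLdef]; exact hzE)).1
  rw [← hLdef] at hff
  have hVinv := hVz X hXd z hz1 (by rw [← hLdef]; exact hzE)
  rw [← hLdef] at hVinv
  -- `H`
  obtain ⟨H, hH⟩ : ∃ H, H = ⌊(M₁ : ℝ) / L ^ (V + 4)⌋₊ := ⟨_, rfl⟩
  have hHup : (H : ℝ) ≤ M₁ / L ^ (V + 4) := by rw [hH]; exact Nat.floor_le (by positivity)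
  have hYY : 1 ≤ Y ^ 4 * L ^ (2 * C + C' + 4) := by
    have a1 : 1 ≤ Y ^ 4 := one_le_pow₀ hY1
    have a2 : 1 ≤ L ^ (2 * C + C' + 4) := one_le_pow₀ hL1
    exact aux_one a1 a2
  have hHlo : 2 * (Y ^ 4 * L ^ (2 * C + C' + 4)) ≤ (H : ℝ) := by
    have a1 := Nat.lt_floor_add_one ((M₁ : ℝ) / L ^ (V + 4))
    rw [← hH] at a1
    have a2 : Y ^ 4 * L ^ (2 * C + C' + 5) ≤ (M₁ : ℝ) / L ^ (V + 4) := by
      rw [le_div_iff₀ (hLp _)]
      calc Y ^ 4 * L ^ (2 * C + C' + 5) * L ^ (V + 4) = Y ^ 4 * L ^ (V + 2 * C + C' + 9) := by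
            rw [mul_assoc, ← pow_add]; congr 2; omega
        _ ≤ _ := hM₁c
    have a3 : Y ^ 4 * L ^ (2 * C + C' + 5) = Y ^ 4 * L ^ (2 * C + C' + 4) * L := by
      rw [mul_assoc, ← pow_succ]
    rw [a3] at a2
    have a5 := aux_two hYY (by linarith : (3 : ℝ) ≤ L)
    linarith
  have hH1 : 1 ≤ H := by
    have : (1 : ℝ) ≤ H := by linarith
    exact_mod_cast this
  have hNH : (N : ℝ) ^ (1 / 3 : ℝ) * Real.log N ^ C' ≤ H := by
    have a1 : (N : ℝ) ^ (1 / 3 : ℝ) ≤ 2 * (Y ^ 4 * L ^ (2 * C + 3)) := by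
      have b1 : (N : ℝ) ≤ (2 * (Y ^ 4 * L ^ (2 * C + 3))) ^ 3 := by
        have b2 : (2 * (Y ^ 4 * L ^ (2 * C + 3))) ^ 3 = 8 * (X * (L ^ (2 * C + 3)) ^ 3) := by
          rw [← hY12]; ring
        rw [b2]
        have b3 : L ^ (2 * C + 3) ≤ (L ^ (2 * C + 3)) ^ 3 := by
          have b4 : 1 ≤ L ^ (2 * C + 3) := one_le_pow₀ hL1
          exact le_self_pow₀ b4 (by norm_num)
        have b5 := mul_le_mul_of_nonneg_left b3 hX0.le
        have b6 : 0 ≤ (X : ℝ) * (L ^ (2 * C + 3)) ^ 3 := by positivity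
        linarith
      calc (N : ℝ) ^ (1 / 3 : ℝ) ≤ ((2 * (Y ^ 4 * L ^ (2 * C + 3))) ^ 3) ^ (1 / 3 : ℝ) :=
            Real.rpow_le_rpow hN0.le b1 (by norm_num)
        _ = 2 * (Y ^ 4 * L ^ (2 * C + 3)) := by
          rw [← Real.rpow_natCast, ← Real.rpow_mul (by positivity)]
          norm_num
    have a2 : Real.log N ^ C' ≤ L ^ (C' + 1) := by
      refine (pow_le_pow_left₀ hlogN0.le hlogN2 _).trans ?_
      rw [mul_pow, pow_succ, mul_comm]
      exact mul_le_mul_of_nonneg_left hLC (hLp _).le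
    calc (N : ℝ) ^ (1 / 3 : ℝ) * Real.log N ^ C' ≤ 2 * (Y ^ 4 * L ^ (2 * C + 3)) * L ^ (C' + 1) :=
          mul_le_mul a1 a2 (by positivity) (by positivity)
      _ = 2 * (Y ^ 4 * L ^ (2 * C + C' + 4)) := by
          have : L ^ (2 * C + C' + 4) = L ^ (2 * C + 3) * L ^ (C' + 1) := by rw [← pow_add]; congr 1; omega
          rw [this]; ring
      _ ≤ H := hHlo
  have hHV : (H : ℝ) * Real.log N ^ V ≤ M₁ * Real.log N := by
    have a2 : Real.log N ^ V ≤ L ^ (V + 1) := by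
      refine (pow_le_pow_left₀ hlogN0.le hlogN2 _).trans ?_
      rw [mul_pow, pow_succ, mul_comm]
      exact mul_le_mul_of_nonneg_left hLV (hLp _).le
    calc (H : ℝ) * Real.log N ^ V ≤ M₁ / L ^ (V + 4) * L ^ (V + 1) := mul_le_mul hHup a2 (by positivity) (by positivity)
      _ = M₁ / L ^ 3 := by
        have : L ^ (V + 4) = L ^ (V + 1) * L ^ 3 := by rw [← pow_add]
        rw [this]
        field_simp
      _ ≤ M₁ / 1 := div_le_div_of_nonneg_left (by linarith) one_pos (one_le_pow₀ hL1)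
      _ = M₁ * 1 := by ring
      _ ≤ _ := mul_le_mul_of_nonneg_left (by linarith) (by linarith)
  -- other conditions
  have hj0 : (0 : ℝ) ≤ j := Nat.cast_nonneg _
  have h2j : 2 * (j : ℝ) ≤ Real.log N ^ (D + 1) := by
    calc 2 * (j : ℝ) ≤ 2 * L ^ D := by linarith
      _ ≤ L ^ (D + 1) := by
        rw [pow_succ]
        have := hLp D
        exact aux_c this.le (by linarith)
      _ ≤ _ := pow_le_pow_left₀ hL0.le hlogN _
  have h6j : 6 * j ≤ N := by
    have : (6 : ℝ) * j ≤ N := by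
      calc (6 : ℝ) * j ≤ 6 * L ^ D := by linarith
        _ ≤ L ^ (D + 1) := by
          rw [pow_succ]
          have := hLp D
          exact aux_c this.le (by linarith)
        _ ≤ S := hSL _ (by omega)
        _ ≤ N := hSX.trans hXN
    exact_mod_cast this
  -- the number of the blocks
  obtain ⟨A, hA⟩ : ∃ A, A = M / M₁ + 1 := ⟨_, rfl⟩
  have hAM : M ≤ A * M₁ := by
    have a1 := Nat.div_add_mod M M₁
    have a2 := Nat.mod_lt M hM₁1
    rw [hA, add_mul, one_mul, mul_comm (M / M₁)]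
    omega
  have hAM2 : (A : ℝ) * M₁ ≤ 2 * M := by
    have a1 : A * M₁ ≤ 2 * M := by
      have := Nat.div_mul_le_self M M₁
      rw [hA, add_mul, one_mul]
      omega
    exact_mod_cast a1
  have hLD : L ^ D ≤ S * L ^ C := by
    have a1 := hSL D (by omega)
    have a2 : 1 ≤ L ^ C := one_le_pow₀ hL1
    exact a1.trans (le_mul_of_one_le_right hS0 a2)
  -- one block
  have hblk : ∀ a ∈ range A, ∑ m ∈ Ioc (m₀ + a * M₁) (m₀ + a * M₁ + M₁), |cor (gg z) X (m + i) (m + j)| ≤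
      M₁ * (1000 * (X / L ^ (U + 6))) := by
    intro a ha
    rw [mem_range] at ha
    obtain ⟨s, hs⟩ : ∃ s, s = m₀ + a * M₁ := ⟨_, rfl⟩
    rw [← hs]
    have hsM : ((s + M₁ : ℕ) : ℝ) ≤ 2 * (S * L ^ C) := by
      have a1 : s + M₁ ≤ m₀ + 2 * M := by
        have a2 : a * M₁ ≤ M / M₁ * M₁ := Nat.mul_le_mul_right _ (by omega)
        have := Nat.div_mul_le_self M M₁
        rw [hs]
        omega
      have a2 : ((s + M₁ : ℕ) : ℝ) ≤ m₀ + 2 * M := by exact_mod_cast a1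
      have a3 : (0 : ℝ) ≤ m₀ := Nat.cast_nonneg _
      linarith
    have hmj : ∀ m ∈ Ioc s (s + M₁), (m : ℝ) + j ≤ 3 * (S * L ^ C) := by
      intro m hm
      rw [mem_Ioc] at hm
      have : (m : ℝ) ≤ ((s + M₁ : ℕ) : ℝ) := by exact_mod_cast hm.2
      linarith
    have hij' : (i : ℝ) ≤ j := by exact_mod_cast hij.le
    have hi0 : (0 : ℝ) ≤ i := Nat.cast_nonneg _
    have hs0 : (0 : ℝ) ≤ s := Nat.cast_nonneg _
    have hDsh : ∀ m ∈ Ioc s (s + M₁), ((Dsh i j m : ℤ) : ℝ) ≤ 6 * (S * L ^ (C + D)) := by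
      intro m hm
      have hm0 : (0 : ℝ) ≤ m := Nat.cast_nonneg _
      have e1 : ((Dsh i j m : ℤ) : ℝ) = ((j : ℝ) - i) * (2 * m + (i + j)) := by
        unfold Dsh
        push_cast [Nat.cast_sub hij.le]
        ring
      rw [e1]
      calc ((j : ℝ) - i) * (2 * m + (i + j)) ≤ L ^ D * (2 * (3 * (S * L ^ C))) := by
            apply mul_le_mul
            · linarith
            · have := hmj m hm
              linarith
            · positivity
            · positivity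
        _ = 6 * (S * L ^ (C + D)) := by rw [pow_add]; ring
    have hNX : (s + i) ^ 2 + X ≤ N := by
      have a1 : (s : ℝ) + i ≤ 3 * (S * L ^ C) := by
        push_cast at hsM
        linarith
      have a2 : ((s : ℝ) + i) ^ 2 ≤ (3 * (S * L ^ C)) ^ 2 := pow_le_pow_left₀ (by positivity) a1 2
      have a3 : (3 * (S * L ^ C)) ^ 2 = 9 * (X * L ^ (2 * C)) := by
        rw [← hSS, pow_mul' L 2 C]; ring
      have a4 : 10 * L ^ (2 * C) ≤ L ^ (2 * C + 3) := by
        rw [pow_add L (2 * C) 3]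
        have : (10 : ℝ) ≤ L ^ 3 := by
          calc (10 : ℝ) ≤ L := by linarith
            _ = L ^ 1 := (pow_one L).symm
            _ ≤ L ^ 3 := pow_le_pow_right₀ hL1 (by norm_num)
        have := mul_le_mul_of_nonneg_left this (hLp (2 * C)).le
        linarith
      have a5 : (X : ℝ) ≤ X * L ^ (2 * C) := by
        have : 1 ≤ L ^ (2 * C) := one_le_pow₀ hL1
        exact le_mul_of_one_le_right hX0.le this
      have a6 := mul_le_mul_of_nonneg_left a4 hX0.le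
      have a7 : ((s : ℝ) + i) ^ 2 + X ≤ N := by
        rw [a3] at a2
        linarith
      exact_mod_cast a7
    have hΔ : ∀ m ∈ Ioc s (s + M₁), ((m : ℝ) + i) ^ 2 - ((s : ℝ) + i) ^ 2 ≤ 6 * (X * L ^ C) / L ^ (C + U + 8) := by
      intro m hm
      have a0 := hmj m hm
      rw [mem_Ioc] at hm
      have a1 : (m : ℝ) - s ≤ M₁ := by
        have : (m : ℝ) ≤ ((s + M₁ : ℕ) : ℝ) := by exact_mod_cast hm.2
        push_cast at this
        linarith
      have a2 : (s : ℝ) ≤ m := by exact_mod_cast hm.1.le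
      calc ((m : ℝ) + i) ^ 2 - ((s : ℝ) + i) ^ 2 = (m - s) * (m + s + 2 * i) := by ring
        _ ≤ (S / L ^ K) * (6 * (S * L ^ C)) := by
          apply mul_le_mul (a1.trans hM₁b)
          · linarith
          · positivity
          · positivity
        _ = 6 * (S * S * L ^ C) / L ^ K := by ring
        _ = _ := by rw [hSS, hK]
    have hkey : ∀ n k : ℕ, n + k ≤ nn → S * L ^ n ≤ X / L ^ k := by
      intro n k hnk
      rw [le_div_iff₀ (hLp _)]
      calc S * L ^ n * L ^ k = S * L ^ (n + k) := by rw [pow_add]; ring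
        _ ≤ S * S := mul_le_mul_of_nonneg_left (hSL _ hnk) hS0
        _ = X := hSS
    have h10 : 10 * (S * L ^ (C + D)) ≤ S * L ^ (C + D + 1) := by
      rw [pow_succ]
      have : 0 ≤ S * L ^ (C + D) := by positivity
      have h11 := aux_c this (by linarith : (10 : ℝ) ≤ L)
      rw [← mul_assoc S (L ^ (C + D)) L]
      exact h11
    have hDN : 6 * (S * L ^ (C + D)) ≤ (N : ℝ) := by
      have a1 := hkey (C + D + 1) 0 (by omega)
      rw [pow_zero, div_one] at a1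
      have : 0 ≤ S * L ^ (C + D) := by positivity
      linarith
    have hT : 6 * (S * L ^ (C + D)) + 4 ≤ 2 * X / L ^ (U + 9) := by
      have a1 := hkey (C + D + 1) (U + 9) (by omega)
      have a2 : 1 ≤ S * L ^ (C + D) := by
        have : 1 ≤ L ^ (C + D) := one_le_pow₀ hL1
        exact aux_one hS1 this
      have a3 : 2 * (X : ℝ) / L ^ (U + 9) = X / L ^ (U + 9) + X / L ^ (U + 9) := by ring
      have a4 : 0 ≤ (X : ℝ) / L ^ (U + 9) := by positivity
      linarith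
    have hmain := block (z := z) (N := N) (X := X) (s := s) (M₁ := M₁) hij hz1 hL1 hff hVinv
      (by have : (2 : ℝ) ≤ N := by
            have a1 : (X : ℝ) * L ≤ X * L ^ (2 * C + 3) := by
              apply mul_le_mul_of_nonneg_left _ hX0.le
              calc L = L ^ 1 := (pow_one L).symm
                _ ≤ _ := pow_le_pow_right₀ hL1 (by omega)
            exact (aux_two2 hXr (by linarith)).trans (a1.trans hNlo)
          exact_mod_cast this) hM₁1 hNX hDsh hΔ hDN hT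
      (h2 N (hXb.trans hXN') z hzB hzE' s M₁ i j H hij h2j hM₁1 hH1 hlogN0
        (fun m hm => (hDsh m hm).trans hDN) h6j hNH hHV L hL0)
    refine hmain.trans ?_
    apply mul_le_mul_of_nonneg_left _ (by linarith)
    have hfin := final_ineq (X := X) (L := L) (N := N) (U := U) (C := C) (D := D) (by linarith) hXr
      (by rw [← hS]; exact hSL _ (by omega)) hNup hlog2N hlogN
    rw [← hS] at hfin
    exact hfin
  -- the end
  have hz' : ⌊Real.log (X : ℝ) ^ E⌋₊ = z := by rw [hz, hLdef]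
  rw [hz', ← hLdef]
  calc ∑ m ∈ Ioc m₀ (m₀ + M), |cor (gg z) X (m + i) (m + j)|
      ≤ ∑ m ∈ Ioc m₀ (m₀ + A * M₁), |cor (gg z) X (m + i) (m + j)| := by
        apply sum_le_sum_of_subset_of_nonneg
        · apply Ioc_subset_Ioc_right
          omega
        · intro m _ _
          exact abs_nonneg _
    _ = ∑ a ∈ range A, ∑ m ∈ Ioc (m₀ + a * M₁) (m₀ + a * M₁ + M₁), |cor (gg z) X (m + i) (m + j)| :=
        sum_blocks _ _ _ _
    _ ≤ ∑ _a ∈ range A, M₁ * (1000 * (X / L ^ (U + 6))) := sum_le_sum hblk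
    _ = A * M₁ * (1000 * (X / L ^ (U + 6))) := by
        rw [sum_const, card_range, nsmul_eq_mul]; ring
    _ ≤ 2 * M * (1000 * (X / L ^ (U + 6))) := mul_le_mul_of_nonneg_right hAM2 (by positivity)
    _ ≤ X * M / L ^ U := by
        rw [pow_add L U 6]
        have a1 : (2000 : ℝ) ≤ L ^ 6 := by
          calc (2000 : ℝ) ≤ 100 ^ 6 := by norm_num
            _ ≤ L ^ 6 := pow_le_pow_left₀ (by norm_num) hL 6
        rw [le_div_iff₀ (hLp _)]
        have a2 : 2 * (M : ℝ) * (1000 * (X / (L ^ U * L ^ 6))) * L ^ U = X * M * (2000 / L ^ 6) := by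
          field_simp
          ring
        rw [a2]
        have a3 : 2000 / L ^ 6 ≤ 1 := by
          rw [div_le_one (hLp _)]; exact a1
        have a4 : (0 : ℝ) ≤ X * M := by positivity
        exact mul_le_of_le_one_right a4 a3

end Run7.h376.CGS
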